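import Pool.Agent.Helper8K9.WR.Cyc

/-!
# Stable subspaces are not isotropic
-/

set_option autoImplicit false

namespace Pool.Agent.Helper8K9.KD

open Polynomial Module Pool.Agent.Helper8K9.AV Pool.Agent.Helper8K9.WR

variable {K : Type*} {V : Type*} [Field K] [CharZero K] [AddCommGroup V] [Module K V]
  [FiniteDimensional K V]

/-- **Stable subspaces are not isotropic**, one operator. -/
theorem pairs_of_simple {B : V →ₗ[K] V →ₗ[K] K} {N : Submodule K V} {P Q : ℚ[X]}
    (hP : Squarefree P) (hloc : LocallyConjugate K P Q)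
    (hnd : ∀ x ∈ N, (∀ y ∈ N, B x y = 0) → x = 0) (e : Module.End K V) (he : ∀ x ∈ N, e x ∈ N)
    (hch : (e.restrict he).charpoly = P.map (algebraMap ℚ K))
    (hadj : ∀ x ∈ N, ∀ y ∈ N, B (e x) y = B x (aeval e (Q.map (algebraMap ℚ K)) y))
    {U : Submodule K V} (hUN : U ≤ N) (hU0 : U ≠ ⊥) (hU : ∀ x ∈ U, e x ∈ U) :
    ∃ x ∈ U, ∃ y ∈ U, B x y ≠ 0 := by
  set F : Module.End K N := e.restrict he with hF
  have hPsq : Squarefree (P.map (algebraMap ℚ K)) :=
    (PerfectField.separable_iff_squarefree).1 (((PerfectField.separable_iff_squarefree).2 hP).map)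
  have hPF : aeval F (P.map (algebraMap ℚ K)) = 0 := by
    rw [← hch]
    exact LinearMap.aeval_self_charpoly F
  refine pairs_of_commutant (N := N) (B := B) (C := {fun x => e x}) hP ?_ hnd ?_ ?_ hloc hUN hU0 ?_
  · rintro _ rfl x y
    exact map_add e x y
  · intro U hUN hU
    have hss := Module.End.isSemisimple_of_squarefree_aeval_eq_zero hPsq hPF
    rw [Module.End.isSemisimple_iff] at hss
    obtain ⟨U', hU', hc⟩ := hss (U.comap N.subtype) (by
      rw [Module.End.mem_invtSubmodule]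
      intro x hx
      exact hU _ rfl x hx)
    rw [Module.End.mem_invtSubmodule] at hU'
    refine ⟨U'.map N.subtype, ?_, ?_, ?_, ?_⟩
    · rintro _ ⟨x, -, rfl⟩
      exact x.2
    · rintro _ rfl _ ⟨x, hx, rfl⟩
      exact ⟨F x, hU' hx, rfl⟩
    · rw [eq_bot_iff]
      rintro _ ⟨hx1, ⟨x, hx2, rfl⟩⟩
      have h1 : x ∈ U.comap N.subtype ⊓ U' := ⟨hx1, hx2⟩
      rw [hc.inf_eq_bot, Submodule.mem_bot] at h1
      rw [h1, map_zero]
      exact Submodule.zero_mem _
    · refine le_antisymm (sup_le hUN ?_) ?_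
      · rintro _ ⟨x, -, rfl⟩
        exact x.2
      · intro x hx
        have h1 : (⟨x, hx⟩ : N) ∈ U.comap N.subtype ⊔ U' := by rw [hc.sup_eq_top]; trivial
        obtain ⟨u, hu, v, hv, huv⟩ := Submodule.mem_sup.1 h1
        refine Submodule.mem_sup.2 ⟨u, hu, v, ⟨v, hv, rfl⟩, ?_⟩
        exact congrArg Subtype.val huv
  · refine ⟨e, he, ?_, hadj, ?_⟩
    · intro x hx
      have h1 := congrArg (fun g : Module.End K N => ((g ⟨x, hx⟩ : N) : V)) hPF
      simp only [LinearMap.zero_apply, ZeroMemClass.coe_zero] at h1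
      rw [hF, aeval_restrict he] at h1
      exact h1
    · intro φ hφN hφ
      obtain ⟨f, hf⟩ := exists_poly_of_comm F (by rw [hch]; exact hPsq) (φ.restrict hφN) (by
        intro x
        exact Subtype.ext (hφ _ rfl x x.2))
      refine ⟨f, fun x hx => ?_⟩
      have h1 := congrArg Subtype.val (hf ⟨x, hx⟩)
      rw [hF, aeval_restrict he] at h1
      exact h1
  · rintro _ rfl x hx
    exact hU x hx

end Pool.Agent.Helper8K9.KD
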