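import Pool.Agent.Helper60K9.KL.Defs

/-!
# Operators with simple spectrum on the cohomology of the strata: definitions
-/

set_option autoImplicit false

namespace Pool.Agent.Helper8K9.KD

open Module Polynomial Pool.Agent.Y143 Pool.Agent.Helper60K9.KL

universe u v

/-! ### Linear algebra -/

section Linear

variable {Ω : Type u} [Field Ω] {H : Type v} [AddCommGroup H] [Module Ω H]

/-- The form `B` is nondegenerate on `U`. -/
def NondegOn (B : H →ₗ[Ω] H →ₗ[Ω] Ω) (U : Submodule Ω H) : Prop :=
  ∀ x ∈ U, (∀ y ∈ U, ev B x y = 0) → x = 0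

/-- On `U` the operator `f` is the adjoint of `e` for the form `B`. -/
def AdjointOn (B : H →ₗ[Ω] H →ₗ[Ω] Ω) (U : Submodule Ω H) (e f : Module.End Ω H) : Prop :=
  ∀ x ∈ U, ∀ y ∈ U, ev B (e x) y = ev B x (f y)

variable [CharZero Ω]

/-- The operator `Q(e)`. -/
noncomputable def polyAt (Q : ℚ[X]) (e : Module.End Ω H) : Module.End Ω H :=
  aeval e (Q.map (algebraMap ℚ Ω))

/-- `U` is finite-dimensional and stable under `e`, and `P` is the characteristic polynomial of `e` on
`U`. -/
def CharpolyOn (U : Submodule Ω H) (e : Module.End Ω H) (P : ℚ[X]) : Prop :=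
  ∃ (_ : Module.Finite Ω U) (he : ∀ x ∈ U, e x ∈ U),
    (e.restrict he).charpoly = P.map (algebraMap ℚ Ω)

/-- The form `B` is nondegenerate on `U`, and some operator `e` in the algebra generated by the operators
in `C` has the characteristic polynomial `P` and the adjoint `Q(e)` on `U`. -/
def Simple (B : H →ₗ[Ω] H →ₗ[Ω] Ω) (C : Set (Module.End Ω H)) (U : Submodule Ω H) (P Q : ℚ[X]) :
    Prop :=
  NondegOn B U ∧ ∃ e ∈ Algebra.adjoin Ω C, CharpolyOn U e P ∧ AdjointOn B U e (polyAt Q e)

variable {H' : Type v} [AddCommGroup H'] [Module Ω H']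

/-- The space `G` is spanned by the group `A` and a subspace `T` of `G` which is stable under the
operators in `C`; the images `ρ t` of the elements of `T` are orthogonal to those of the elements of
`A`, and belong to a space `U` with `Simple`. -/
def SpanSimple (G : Submodule Ω H) (A : AddSubgroup H) (C : Set (Module.End Ω H)) (ρ : H →ₗ[Ω] H')
    (B : H' →ₗ[Ω] H' →ₗ[Ω] Ω) (C' : Set (Module.End Ω H')) (P Q : ℚ[X]) : Prop :=
  ∃ (T : Submodule Ω H) (U : Submodule Ω H'), T ≤ G ∧ G ≤ Submodule.span Ω (A : Set H) ⊔ T ∧
    (∀ c ∈ C, ∀ x ∈ T, c x ∈ T) ∧ (∀ x ∈ T, ρ x ∈ U) ∧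
    (∀ t ∈ T, ∀ d ∈ A, ev B (ρ t) (ρ d) = 0) ∧ Simple B C' U P Q

/-- The elements `τ h`, `h ∈ G`, belong to a space `U` with `Simple`. -/
def ImageSimple (G : Submodule Ω H') (τ : H' →ₗ[Ω] H) (B : H →ₗ[Ω] H →ₗ[Ω] Ω)
    (C : Set (Module.End Ω H)) (P Q : ℚ[X]) : Prop :=
  ∃ U : Submodule Ω H, (∀ h ∈ G, τ h ∈ U) ∧ Simple B C U P Q

end Linear

/-! ### The strata -/

variable {Ω : Type u} [Field Ω] [CharZero Ω] {Γ : Type} {n q : ℕ}

/-- The operators (Frobenius and others) on the cohomology of `Y^(a+1)`. -/
def opsOf (X : SpecialFibre.{u, v} Ω Γ n q) (a : ℕ) : Set (Module.End Ω (X.H a)) :=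
  Set.range (X.act a)

/-- `U` is a subspace of the cohomology of `Y^(a+1)` on which the Poincare pairing is nondegenerate, and
on which some operator `e` in the algebra generated by the given operators (Frobenius and others) has
the characteristic polynomial `P`, with rational coefficients, and the adjoint `Q(e)`. -/
def SimpleOn (X : SpecialFibre.{u, v} Ω Γ n q) (a : ℕ) (U : Submodule Ω (X.H a)) (P Q : ℚ[X]) :
    Prop := Simple (X.pair a) (opsOf X a) U P Q

/-- The middle cohomology `H^d(Y^(a+2))`, `d = n - a - 1 = dim Y^(a+2)`, has simple spectrum: an operator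
as in `SimpleOn`, for example Frobenius, has the squarefree characteristic polynomial `P` on it. -/
def SimpleMiddle (X : SpecialFibre.{u, v} Ω Γ n q) (a : ℕ) (P Q : ℚ[X]) : Prop :=
  SimpleOn X (a + 1) (X.gr (a + 1) ((n : ℤ) - (a + 1))) P Q

/-- `H^2(Y^(a+1))` is spanned by the divisor classes and a subspace `T` stable under the operators, the
restrictions to `Y^(a+2)` of the elements of `T` are orthogonal to those of the divisor classes and
belong to a subspace `U` with simple spectrum. For `n = a + 3` this is so if `Y^(a+1)` satisfies the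
Tate conjecture for divisors, and Frobenius has simple spectrum on the part `U` of the second
cohomology of the surfaces `Y^(a+2)` where the eigenvalues are not `q` times roots of unity. -/
def TransSimple {X : SpecialFibre.{u, v} Ω Γ n q} (A : DivisorClasses X) (a : ℕ) (P Q : ℚ[X]) :
    Prop :=
  SpanSimple (X.gr a 2) (A.A1 a) (opsOf X a) (X.res a) (X.pair (a + 1)) (opsOf X (a + 1)) P Q

/-- The condition on the strata `Y^(a+2)` of dimension `d = n - a - 1 ≥ 2`: simple spectrum on the middle
cohomology, or, if they are surfaces, simple spectrum on the transcendental part of the second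
cohomology, in the sense of `TransSimple`. (With `P = 1` and `U = 0` this includes the case where
`H^2(Y^(n-2))` is spanned by divisor classes.) -/
def Covered {X : SpecialFibre.{u, v} Ω Γ n q} (A : DivisorClasses X) (a : ℕ) (P Q : ℚ[X]) : Prop :=
  SimpleMiddle X a P Q ∨ (n = a + 3 ∧ TransSimple A a P Q)

/-- The images in `H^3(Y^(a+1))` of the classes in `H^1(Y^(a+2))` with primitive Gysin image belong to
a subspace `U` with simple spectrum. For `n = a + 3` this is so if Frobenius has simple spectrum on the
primitive part of the third cohomology of the threefolds `Y^(a+1)`, or only on the part of it where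
the eigenvalues divided by `q` are eigenvalues on `H^1(Y^(a+2))`. -/
def GysSimple (X : SpecialFibre.{u, v} Ω Γ n q) (a : ℕ) (P Q : ℚ[X]) : Prop :=
  ImageSimple (primGys X a) (X.gys a) (X.pair a) (opsOf X a) P Q

end Pool.Agent.Helper8K9.KD
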