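import Pool.Agent.Helper8K9.KD.Many

/-!
# The operator is Frobenius
-/

set_option autoImplicit false

namespace Pool.Agent.Helper8K9.KD

open Module Polynomial Pool.Agent.Y143 Pool.Agent.Helper60K9.KL Pool.Agent.Helper8K9.AV
  Pool.Agent.Helper11K9.Dens

universe u v

variable {Ω : Type u} [Field Ω] [CharZero Ω] {Γ : Type} {n q : ℕ}

/-- Simple spectrum of Frobenius on a nondegenerate subspace of `H^(n - a)(Y^(a+1))`. -/
theorem simpleOn_of_frobenius (X : SpecialFibre.{u, v} Ω Γ n q) {a : ℕ} (ha : a ≤ n)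
    {U : Submodule Ω (X.H a)} {P Q : ℚ[X]} (hPQ : P ∣ Polynomial.X * Q - C ((q : ℚ) ^ (n - a)))
    (hnd : ∀ x ∈ U, (∀ y ∈ U, ev (X.pair a) x y = 0) → x = 0) [hfin : Module.Finite Ω U]
    (he : ∀ x ∈ U, X.act a X.frob x ∈ U)
    (hch : ((X.act a X.frob).restrict he).charpoly = P.map (algebraMap ℚ Ω)) :
    SimpleOn X a U P Q := by
  have hUU : ∀ f : Polynomial Ω, ∀ x ∈ U, aeval (X.act a X.frob) f x ∈ U := by
    intro f x hx
    induction f using Polynomial.induction_on' with
    | add f g hf hg => rw [map_add, LinearMap.add_apply]; exact U.add_mem hf hg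
    | monomial k c =>
      rw [aeval_monomial, Module.End.mul_apply, Module.algebraMap_end_apply]
      refine U.smul_mem _ ?_
      induction k with
      | zero => simpa using hx
      | succ k ih => rw [pow_succ', Module.End.mul_apply]; exact he _ ih
  have hP0 : ∀ x ∈ U, aeval (X.act a X.frob) (P.map (algebraMap ℚ Ω)) x = 0 := by
    intro x hx
    have h1 : aeval ((X.act a X.frob).restrict he) (P.map (algebraMap ℚ Ω)) = 0 := by
      rw [← hch]
      exact LinearMap.aeval_self_charpoly _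
    have h2 := congrArg (fun g : Module.End Ω U => ((g ⟨x, hx⟩ : U) : X.H a)) h1
    simp only [LinearMap.zero_apply, ZeroMemClass.coe_zero] at h2
    rwa [Pool.Agent.Helper8K9.AV.aeval_restrict he] at h2
  refine ⟨hnd, X.act a X.frob, Algebra.subset_adjoin ⟨X.frob, rfl⟩, ⟨hfin, he, hch⟩, ?_⟩
  intro x hx y hy
  show X.pair a (X.act a X.frob x) y = X.pair a x (aeval (X.act a X.frob) (Q.map (algebraMap ℚ Ω)) y)
  rw [X.act_pair, ← smul_eq_mul, ← map_smul]
  congr 1
  obtain ⟨g, hg⟩ := hPQ
  have h3 : (Polynomial.X * Q.map (algebraMap ℚ Ω) - C ((q : Ω) ^ (n - a)) : Polynomial Ω) =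
      g.map (algebraMap ℚ Ω) * P.map (algebraMap ℚ Ω) := by
    have h4 := congrArg (Polynomial.map (algebraMap ℚ Ω)) hg
    rw [Polynomial.map_sub, Polynomial.map_mul, Polynomial.map_mul, Polynomial.map_X,
      Polynomial.map_C, map_pow, map_natCast] at h4
    rw [h4, mul_comm]
  have h5 := congrArg (fun f => aeval (X.act a X.frob) f y) h3
  simp only [map_sub, map_mul, LinearMap.sub_apply, Module.End.mul_apply, aeval_X, aeval_C] at h5
  rw [hP0 y hy, map_zero, sub_eq_zero, Module.algebraMap_end_apply] at h5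
  have h6 := congrArg (X.act a (X.tr X.frob)) h5
  rw [X.frob_inv, map_smul] at h6
  rw [h6]
  congr 1
  rw [Units.val_zpow_eq_zpow_val, X.cyc_frob, ← zpow_natCast]
  congr 1
  omega

end Pool.Agent.Helper8K9.KD
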