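import Pool.Agent.Helper8K9.KD.Defs
import Pool.Agent.Helper8K9.KD.Aniso
import Pool.Agent.Helper8K9.AV.Dens
import Pool.Agent.Helper60K9.KL.Mid
import Pool.Agent.Helper60K9.KL.Curves

/-!
# Kato's conjecture from operators with simple spectrum
-/

set_option autoImplicit false

namespace Pool.Agent.Helper8K9.KD

open Module Polynomial Pool.Agent.Y143 Pool.Agent.Helper60K9.KL Pool.Agent.Helper8K9.AV
  Pool.Agent.Helper11K9.Dens

universe u v

theorem stable_adjoin {K : Type*} {V : Type*} [Field K] [AddCommGroup V] [Module K V] {Γ : Type*}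
    (T : Γ → Module.End K V) (U : Submodule K V) (hU : ∀ g, ∀ x ∈ U, T g x ∈ U) {e : Module.End K V}
    (he : e ∈ Algebra.adjoin K (Set.range T)) : ∀ x ∈ U, e x ∈ U := by
  induction he using Algebra.adjoin_induction with
  | mem f hf =>
    obtain ⟨g, rfl⟩ := hf
    exact hU g
  | algebraMap r =>
    intro x hx
    rw [Module.algebraMap_end_eq_smul_id]
    exact U.smul_mem r hx
  | add f g _ _ hf hg =>
    intro x hx
    exact U.add_mem (hf x hx) (hg x hx)
  | mul f g _ _ hf hg =>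
    intro x hx
    exact hf _ (hg x hx)

variable {Ω : Type u} [Field Ω] [CharZero Ω] {Γ : Type} {n q : ℕ}

/-- the form is nondegenerate on the restriction of a stable subspace -/
theorem nondeg_res (X : SpecialFibre.{u, v} Ω Γ n q) {a : ℕ} {T : Submodule Ω (X.H a)}
    {U : Submodule Ω (X.H (a + 1))} {P Q : ℚ[X]} (hP : Squarefree P) (hloc : LocallyConjugate Ω P Q)
    (hT : ∀ g, ∀ x ∈ T, X.act a g x ∈ T) (hTU : ∀ x ∈ T, X.res a x ∈ U)
    (hU : SimpleOn X (a + 1) U P Q) {t : X.H a} (ht : t ∈ T)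
    (h0 : ∀ t' ∈ T, X.pair (a + 1) (X.res a t) (X.res a t') = 0) : X.res a t = 0 := by
  obtain ⟨hnd, e, headj, ⟨_, he, hch⟩, hadj⟩ := hU
  have hfin : FiniteDimensional Ω (X.H (a + 1)) := (X.duality (a + 1)).1.finite
  -- the radical
  let S : Submodule Ω (X.H (a + 1)) :=
    { carrier := {z | (∃ y ∈ T, X.res a y = z) ∧ ∀ t' ∈ T, X.pair (a + 1) z (X.res a t') = 0}
      add_mem' := by
        rintro _ _ ⟨⟨y, hy, rfl⟩, h1⟩ ⟨⟨z, hz, rfl⟩, h2⟩
        refine ⟨⟨y + z, T.add_mem hy hz, map_add _ _ _⟩, fun t' ht' => ?_⟩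
        rw [map_add, LinearMap.add_apply, h1 t' ht', h2 t' ht', add_zero]
      zero_mem' := ⟨⟨0, T.zero_mem, map_zero _⟩, fun t' _ => by
        rw [map_zero, LinearMap.zero_apply]⟩
      smul_mem' := by
        rintro c _ ⟨⟨y, hy, rfl⟩, h1⟩
        refine ⟨⟨c • y, T.smul_mem c hy, map_smul _ _ _⟩, fun t' ht' => ?_⟩
        rw [map_smul, LinearMap.smul_apply, h1 t' ht', smul_zero] }
  have hS : ∀ g, ∀ x ∈ S, X.act (a + 1) g x ∈ S := by
    rintro g _ ⟨⟨y, hy, rfl⟩, h1⟩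
    refine ⟨⟨X.act a g y, hT g y hy, (X.res_act a g y).symm⟩, fun t' ht' => ?_⟩
    rw [X.act_pair, X.res_act, h1 _ (hT _ _ ht'), mul_zero]
  have hSU : S ≤ U := by
    rintro _ ⟨⟨y, hy, rfl⟩, -⟩
    exact hTU y hy
  have hmem : X.res a t ∈ S := ⟨⟨t, ht, rfl⟩, h0⟩
  by_contra hne
  have hS0 : S ≠ ⊥ := fun h => hne (by rwa [h, Submodule.mem_bot] at hmem)
  obtain ⟨x, hx, _, ⟨⟨y, hy, rfl⟩, -⟩, hxy⟩ := pairs_of_simple (B := X.pair (a + 1)) hP hloc hnd e he
    hch hadj hSU hS0 (stable_adjoin _ S hS headj)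
  exact hxy (hx.2 y hy)

/-- simple spectrum on the middle cohomology -/
theorem zeroCrit_of_simple (X : SpecialFibre.{u, v} Ω Γ n q) {a : ℕ} {P Q : ℚ[X]}
    (hP : Squarefree P) (hloc : LocallyConjugate Ω P Q) (h : SimpleMiddle X a P Q) :
    ZeroCrit (X.gr a ((n : ℤ) - (a + 1))) (X.res a) (X.gys a) := by
  intro y hy hG
  refine nondeg_res X hP hloc (fun g x hx => X.act_gr a _ g x hx) (fun x hx => X.res_gr a _ x hx) h hy
    fun t' _ => ?_
  rw [← X.pair_gys, hG, map_zero, LinearMap.zero_apply]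

/-- simple spectrum on the transcendental part -/
theorem transNondeg_of_simple {X : SpecialFibre.{u, v} Ω Γ n q} {A : DivisorClasses X} {a : ℕ}
    {P Q : ℚ[X]} (ha : n = a + 3) (hP : Squarefree P) (hloc : LocallyConjugate Ω P Q)
    (h : TransSimple A a P Q) : TransNondeg A a := by
  obtain ⟨T, U, hT2, hspan, hT, hTU, hort, hU⟩ := h
  have h0 : n - a - 3 = 0 := by omega
  have hform : ∀ x y, ev (formL X (a + 1) (n - a - 3)) x y = X.pair (a + 1) x y := by
    intro x y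
    rw [h0]
    rfl
  refine ⟨T, hT2, hspan, fun t ht d hd => ?_, fun t ht h1 => ?_⟩
  · rw [hform]
    exact hort t ht d hd
  · refine nondeg_res X hP hloc (fun g => hT _ ⟨g, rfl⟩) hTU hU ht fun t' ht' => ?_
    rw [← hform]
    exact h1 t' ht'

theorem midCrit_of_covered {X : SemistableModel.{u, v} Ω Γ n q} {A : DivisorClasses X.toSpecialFibre}
    {a : ℕ} (ha : a + 3 ≤ n) {P Q : ℚ[X]} (hP : Squarefree P) (hloc : LocallyConjugate Ω P Q)
    (h : Covered A a P Q) : MidCrit X.toSpecialFibre a := by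
  rcases h with h | ⟨hn, h⟩
  · exact midCrit_of_zero (zeroCrit_of_simple _ hP hloc h)
  · exact (midCrit_three hn).2 (divCrit_of_trans A ha (transNondeg_of_simple hn hP hloc h))

/-- **one prime** -/
theorem katoAt_of_covered {X : SemistableModel.{u, v} Ω Γ n q} (A : DivisorClasses X.toSpecialFibre)
    {P Q : Fin (n - 2) → ℚ[X]} (hP : ∀ a, Squarefree (P a))
    (hloc : ∀ a, LocallyConjugate Ω (P a) (Q a)) (h : ∀ a : Fin (n - 2), Covered A (a : ℕ) (P a) (Q a)) :
    KatoAt X n :=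
  (katoAt_iff_mid A).2 fun a ha => midCrit_of_covered ha (hP ⟨a, by omega⟩) (hloc ⟨a, by omega⟩)
    (h ⟨a, by omega⟩)

/-- simple spectrum on the Gysin images of `H^1` -/
theorem primGysin_of_simple (X : SpecialFibre.{u, v} Ω Γ n q) {a : ℕ} (ha : n = a + 3) {P Q : ℚ[X]}
    (hP : Squarefree P) (hloc : LocallyConjugate Ω P Q) (h : GysSimple X a P Q) : PrimGysin X a := by
  obtain ⟨U, hU, hnd, e, headj, ⟨_, he, hch⟩, hadj⟩ := h
  intro h0 hh hR hL
  have hs : n - a - 2 = 1 := by omega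
  have hL' : X.lef a (X.gys a h0) = 0 := by
    have h1 : (X.lef a ^ (n - a - 2)) (X.gys a h0) = 0 := hL
    rwa [hs, pow_one] at h1
  have hprim : ∀ h1 ∈ X.gr (a + 1) 1, X.lef a (X.gys a h1) = 0 → X.gys a h1 ∈ U := by
    intro h1 h2 h3
    refine hU h1 ⟨h2, ?_, ?_⟩
    · have h4 := X.gys_gr a 1 h1 h2
      simpa using h4
    · show (X.lef a ^ (n - a - 2)) (X.gys a h1) = 0
      rw [hs, pow_one]
      exact h3
  have hfin : FiniteDimensional Ω (X.H a) := (X.duality a).1.finite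
  -- the images
  let S : Submodule Ω (X.H a) :=
    { carrier := {z | ∃ h1 ∈ X.gr (a + 1) 1, X.res (a + 1) h1 = 0 ∧ X.lef a (X.gys a h1) = 0 ∧
        X.gys a h1 = z}
      add_mem' := by
        rintro _ _ ⟨y, hy, hy1, hy2, rfl⟩ ⟨z, hz, hz1, hz2, rfl⟩
        refine ⟨y + z, Submodule.add_mem _ hy hz, ?_, ?_, map_add _ _ _⟩
        · rw [map_add, hy1, hz1, add_zero]
        · rw [map_add, map_add, hy2, hz2, add_zero]
      zero_mem' := ⟨0, Submodule.zero_mem _, map_zero _, by rw [map_zero, map_zero], map_zero _⟩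
      smul_mem' := by
        rintro c _ ⟨y, hy, hy1, hy2, rfl⟩
        refine ⟨c • y, Submodule.smul_mem _ c hy, ?_, ?_, map_smul _ _ _⟩
        · rw [map_smul, hy1, smul_zero]
        · rw [map_smul, map_smul, hy2, smul_zero] }
  have hSU : S ≤ U := by
    rintro _ ⟨y, hy, -, hy2, rfl⟩
    exact hprim y hy hy2
  have hS : ∀ g, ∀ x ∈ S, X.act a g x ∈ S := by
    rintro g _ ⟨y, hy, hy1, hy2, rfl⟩
    refine ⟨(X.cyc g : Ω) • X.act (a + 1) g y, Submodule.smul_mem _ _ (X.act_gr (a + 1) 1 g y hy),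
      ?_, ?_, ?_⟩
    · rw [map_smul, ← X.res_act, hy1, map_zero, smul_zero]
    · rw [map_smul, ← X.gys_act]
      have h4 := X.lef_act a g (X.gys a y)
      rw [hy2, map_zero] at h4
      exact (smul_eq_zero.1 h4.symm).resolve_left (Units.ne_zero _)
    · rw [map_smul, ← X.gys_act]
  have hmem : X.gys a h0 ∈ S := ⟨h0, hh, hR, hL', rfl⟩
  by_contra hne
  have hS0 : S ≠ ⊥ := fun h => hne (by rwa [h, Submodule.mem_bot] at hmem)
  obtain ⟨x, ⟨y, hy, hy1, hy2, rfl⟩, _, ⟨z, hz, hz1, hz2, rfl⟩, hxy⟩ := pairs_of_simple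
    (B := X.pair a) hP hloc hnd e he hch hadj hSU hS0 (stable_adjoin _ S hS headj)
  apply hxy
  have e5 := X.res_gys a z
  rw [hz1, map_zero, add_zero] at e5
  rw [X.pair_gys, e5, map_zero]

/-- **threefolds, one prime** -/
theorem kato_three_of_covered {X : SemistableModel.{u, v} Ω Γ 3 q}
    (A : DivisorClasses X.toSpecialFibre) {P Q P' Q' : ℚ[X]} (hP : Squarefree P)
    (hloc : LocallyConjugate Ω P Q) (hP' : Squarefree P') (hloc' : LocallyConjugate Ω P' Q')
    (h : TransNondeg A 0 ∨ Covered A 0 P Q)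
    (hG : NoObstruction X.toSpecialFibre 0 ∨ GysSimple X.toSpecialFibre 0 P' Q') (m : ℕ) :
    KatoAt X m := by
  refine (kato_three_iff A).2 ⟨?_, ?_⟩ m
  · rcases hG with hG | hG
    · exact primGysin_of_no hG
    · exact primGysin_of_simple _ rfl hP' hloc' hG
  · rcases h with h | h
    · exact divCrit_of_trans A le_rfl h
    · exact (midCrit_three rfl).1 (midCrit_of_covered le_rfl hP hloc h)

end Pool.Agent.Helper8K9.KD
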