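import Pool.Agent.Helper8K9.KD.Main

/-!
# Kato's conjecture for many primes
-/

set_option autoImplicit false

namespace Pool.Agent.Helper8K9.KD

open Module Polynomial Pool.Agent.Y143 Pool.Agent.Helper60K9.KL Pool.Agent.Helper8K9.AV
  Pool.Agent.Helper11K9.Dens

universe v

/-- **The middle cohomology, many primes** -/
theorem many_middle {n q : ℕ} {P Q : Fin (n - 2) → ℚ[X]} (hPQ : ∀ a, IsConjugationPair (P a) (Q a))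
    (p : ℕ) (K : ℕ → Type) [∀ ℓ, Field (K ℓ)] [∀ ℓ, CharZero (K ℓ)] (Γ : ℕ → Type)
    (X : ∀ ℓ, SemistableModel.{0, v} (K ℓ) (Γ ℓ) n q)
    (A : ∀ ℓ, DivisorClasses (X ℓ).toSpecialFibre)
    (h : ∀ (ℓ : ℕ) [Fact ℓ.Prime], ℓ ≠ p → Nonempty (K ℓ ≃+* ℚ_[ℓ]) ∧
      ∀ a : Fin (n - 2), Covered (A ℓ) (a : ℕ) (P a) (Q a)) :
    HasLowerDensity {ℓ | KatoAt (X ℓ) n} ((1 / 2 : ℝ) ^ pairNumber P) :=
  density_conj hPQ p K (fun ℓ _ hℓ => (h ℓ hℓ).1) _ fun ℓ _ hℓ hloc =>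
    katoAt_of_covered (A ℓ) (fun a => (hPQ a).1) hloc (h ℓ hℓ).2

/-- **Threefolds, all degrees, many primes** -/
theorem many_three {q : ℕ} {P Q : Fin 2 → ℚ[X]} (hPQ : ∀ a, IsConjugationPair (P a) (Q a))
    (p : ℕ) (K : ℕ → Type) [∀ ℓ, Field (K ℓ)] [∀ ℓ, CharZero (K ℓ)] (Γ : ℕ → Type)
    (X : ∀ ℓ, SemistableModel.{0, v} (K ℓ) (Γ ℓ) 3 q)
    (A : ∀ ℓ, DivisorClasses (X ℓ).toSpecialFibre)
    (h : ∀ (ℓ : ℕ) [Fact ℓ.Prime], ℓ ≠ p → Nonempty (K ℓ ≃+* ℚ_[ℓ]) ∧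
      (TransNondeg (A ℓ) 0 ∨ Covered (A ℓ) 0 (P 0) (Q 0)) ∧
      (NoObstruction (X ℓ).toSpecialFibre 0 ∨ GysSimple (X ℓ).toSpecialFibre 0 (P 1) (Q 1))) :
    HasLowerDensity {ℓ | ∀ m, KatoAt (X ℓ) m} ((1 / 2 : ℝ) ^ pairNumber P) :=
  density_conj hPQ p K (fun ℓ _ hℓ => (h ℓ hℓ).1) _ fun ℓ _ hℓ hloc m =>
    kato_three_of_covered (A ℓ) (hPQ 0).1 (hloc 0) (hPQ 1).1 (hloc 1) (h ℓ hℓ).2.1 (h ℓ hℓ).2.2 m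

end Pool.Agent.Helper8K9.KD
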