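import Pool.Agent.Helper8K9.KD.Many

/-!
# Kato's conjecture for one and for many primes: definitions used in the statements
-/

set_option autoImplicit false

namespace Pool.Agent.Helper8K9.KD

open Module Polynomial Pool.Agent.Y143 Pool.Agent.Helper60K9.KL Pool.Agent.Helper8K9.AV
  Pool.Agent.Helper11K9.Dens

universe u v

section One

variable {Ω : Type u} [Field Ω] [CharZero Ω] {Γ : Type} {n q : ℕ}

/-- The criteria of Kato's conjecture for the middle cohomology. -/
def MiddleCriteria (X : SemistableModel.{u, v} Ω Γ n q) (A : DivisorClasses X.toSpecialFibre) :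
    Prop :=
  (KatoAt X n ↔ ∀ a, a + 3 ≤ n → MidCrit X.toSpecialFibre a) ∧
  (∀ a, GrIso X n (a + 1) ↔ MidCrit X.toSpecialFibre a) ∧
  (∀ a, a < n → n < a + 3 → MidCrit X.toSpecialFibre a) ∧
  (∀ a, n = a + 3 → (MidCrit X.toSpecialFibre a ↔ DivCrit X.toSpecialFibre a) ∧
    (TransNondeg A a → MidCrit X.toSpecialFibre a)) ∧
  (HighCrit X.toSpecialFibre → ∀ a, a + 4 ≤ n → MidCrit X.toSpecialFibre a)

/-- The condition on the second cohomology of the components and double surfaces: `TransNondeg`, or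
simple spectrum (`TransSimple`) with all eigenvalues conjugate over `Ω` to their complex conjugates. -/
def SecondGood {X : SpecialFibre.{u, v} Ω Γ n q} (A : DivisorClasses X) : Prop :=
  TransNondeg A 0 ∨ ∃ P Q : ℚ[X], IsConjugationPair P Q ∧ LocallyConjugate Ω P Q ∧
    TransSimple A 0 P Q

/-- The condition on the Gysin images of the first cohomology of the double surfaces:
`NoObstruction`, or simple spectrum (`GysSimple`) with all eigenvalues conjugate over `Ω` to their
complex conjugates. -/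
def FirstGood (X : SpecialFibre.{u, v} Ω Γ n q) : Prop :=
  NoObstruction X 0 ∨ ∃ P Q : ℚ[X], IsConjugationPair P Q ∧ LocallyConjugate Ω P Q ∧
    GysSimple X 0 P Q

end One

/-- The `ℓ`-adic cohomologies, for all primes `ℓ ≠ p`, of a projective SNCL scheme of relative
dimension `n` over a log point whose residue field has `q` elements and characteristic `p`; the
fields of coefficients `K ℓ` are isomorphic to `ℚ_ℓ`. -/
structure AdicFamily (n q p : ℕ) where
  K : ℕ → Type
  [fld : ∀ ℓ, Field (K ℓ)]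
  [char : ∀ ℓ, CharZero (K ℓ)]
  adic : ∀ (ℓ : ℕ) [Fact ℓ.Prime], ℓ ≠ p → Nonempty (K ℓ ≃+* ℚ_[ℓ])
  Γ : ℕ → Type
  X : ∀ ℓ, SemistableModel.{0, v} (K ℓ) (Γ ℓ) n q
  A : ∀ ℓ, DivisorClasses (X ℓ).toSpecialFibre

attribute [instance] AdicFamily.fld AdicFamily.char

namespace AdicFamily

variable {n q p : ℕ}

/-- For all `ℓ ≠ p` the condition `Covered` is satisfied by the strata, with polynomials `P a` and
`Q a` independent of `ℓ`. -/
def CoveredBy (F : AdicFamily.{v} n q p) (P Q : Fin (n - 2) → ℚ[X]) : Prop :=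
  ∀ (ℓ : ℕ) [Fact ℓ.Prime], ℓ ≠ p → ∀ a : Fin (n - 2), Covered (F.A ℓ) (a : ℕ) (P a) (Q a)

/-- (`n = 3`) For all `ℓ ≠ p`: `TransNondeg` or `TransSimple` with the polynomials `P 0`, `Q 0`, and
`NoObstruction` or `GysSimple` with the polynomials `P 1`, `Q 1`. -/
def GoodBy (F : AdicFamily.{v} n q p) (P Q : Fin 2 → ℚ[X]) : Prop :=
  ∀ (ℓ : ℕ) [Fact ℓ.Prime], ℓ ≠ p →
    (TransNondeg (F.A ℓ) 0 ∨ TransSimple (F.A ℓ) 0 (P 0) (Q 0)) ∧
    (NoObstruction (F.X ℓ).toSpecialFibre 0 ∨ GysSimple (F.X ℓ).toSpecialFibre 0 (P 1) (Q 1))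

/-- The primes `ℓ` for which Kato's conjecture is true for `H^m`. -/
def kato (F : AdicFamily.{v} n q p) (m : ℕ) : Set ℕ := {ℓ | KatoAt (F.X ℓ) m}

/-- The primes `ℓ` for which Kato's conjecture is true for all the `H^m`. -/
def katoAll (F : AdicFamily.{v} n q p) : Set ℕ := {ℓ | ∀ m, KatoAt (F.X ℓ) m}

end AdicFamily

end Pool.Agent.Helper8K9.KD
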